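import Pool.Agent.Helper59.PR.TK2
import Pool.Agent.Helper65.PR.TK4A

/-! TK4B: spectral radii of small rank operators -/

set_option autoImplicit false

namespace PR

open ContinuousLinearMap Polynomial

section sr

variable {X : Type*} [NormedAddCommGroup X] [NormedSpace ℂ X] [CompleteSpace X]

/-- the spectrum lies in the zeros of a polynomial killing `T` -/
theorem spec_of_aeval {T : X →L[ℂ] X} {p : ℂ[X]} (hp : Polynomial.aeval T p = 0) {l : ℂ}
    (hl : l ∈ spectrum ℂ T) : p.eval l = 0 := by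
  have h1 := spectrum.subset_polynomial_aeval T p
  have h2 : p.eval l ∈ spectrum ℂ (0 : X →L[ℂ] X) := by
    rw [← hp]; exact h1 ⟨l, hl, rfl⟩
  have hne : Nontrivial (X →L[ℂ] X) := by
    by_contra hn
    rw [not_nontrivial_iff_subsingleton] at hn
    have := spectrum.of_subsingleton (R := ℂ) T
    rw [this] at hl
    exact hl
  rw [spectrum.zero_eq] at h2
  exact h2

theorem sr_rk (x : X) (f : X →L[ℂ] ℂ) : sr (rk x f) = ‖f x‖ := by
  apply le_antisymm
  · apply sr_le (norm_nonneg _)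
    intro l hl
    have h1 : Polynomial.aeval (rk x f) (Polynomial.X * (Polynomial.X - C (f x))) = 0 := by
      rw [map_mul, map_sub, aeval_X, aeval_C]
      ext z
      simp [Algebra.algebraMap_eq_smul_one, mul_comm]
    have h2 := spec_of_aeval h1 hl
    rw [eval_mul, eval_sub, eval_X, eval_C] at h2
    rcases mul_eq_zero.1 h2 with h | h
    · rw [h]; simp
    · rw [sub_eq_zero.1 h]
  · by_cases h : f x = 0
    · rw [h, norm_zero]; exact sr_nonneg _
    · have hx : x ≠ 0 := by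
        rintro rfl; exact h (map_zero f)
      exact norm_le_sr hx (rk_apply x f x)

theorem mul_rk (T : X →L[ℂ] X) (x : X) (f : X →L[ℂ] ℂ) : T * rk x f = rk (T x) f := by
  ext z; simp

theorem sr_mul_rk (T : X →L[ℂ] X) (x : X) (f : X →L[ℂ] ℂ) : sr (T * rk x f) = ‖f (T x)‖ := by
  rw [mul_rk, sr_rk]

/-- lower bound from a two dimensional invariant space -/
theorem Rt_le_sr {U : X →L[ℂ] X} {u1 u2 : X} {g1 g2 : X →L[ℂ] ℂ}
    (h : ∀ c1 c2 : ℂ, U (c1 • u1 + c2 • u2)
      = g1 (c1 • u1 + c2 • u2) • u1 + g2 (c1 • u1 + c2 • u2) • u2) :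
    Rt (g1 u1 + g2 u2) (g1 u1 * g2 u2 - g1 u2 * g2 u1) ≤ sr U := by
  obtain ⟨l1, l2, hs, hp⟩ := exists_roots (g1 u1 + g2 u2) (g1 u1 * g2 u2 - g1 u2 * g2 u1)
  rw [Rt_eq hs hp]
  have key : ∀ l : ℂ, l ^ 2 - (g1 u1 + g2 u2) * l + (g1 u1 * g2 u2 - g1 u2 * g2 u1) = 0 →
      ‖l‖ ≤ sr U := by
    intro l hl
    by_cases hl0 : l = 0
    · rw [hl0, norm_zero]; exact sr_nonneg _
    have hdet : (!![g1 u1 - l, g1 u2; g2 u1, g2 u2 - l] : Matrix (Fin 2) (Fin 2) ℂ).det = 0 := by
      rw [Matrix.det_fin_two_of]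
      linear_combination hl
    obtain ⟨c, hc, hMc⟩ := Matrix.exists_mulVec_eq_zero_iff.2 hdet
    have e1 : (g1 u1 - l) * c 0 + g1 u2 * c 1 = 0 := by
      have := congrFun hMc 0
      simpa [Matrix.mulVec, dotProduct, Fin.sum_univ_two] using this
    have e2 : g2 u1 * c 0 + (g2 u2 - l) * c 1 = 0 := by
      have := congrFun hMc 1
      simpa [Matrix.mulVec, dotProduct, Fin.sum_univ_two] using this
    set v : X := c 0 • u1 + c 1 • u2 with hv
    have f1 : g1 v = l * c 0 := by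
      rw [hv, map_add, map_smul, map_smul, smul_eq_mul, smul_eq_mul]
      linear_combination e1
    have f2 : g2 v = l * c 1 := by
      rw [hv, map_add, map_smul, map_smul, smul_eq_mul, smul_eq_mul]
      linear_combination e2
    have hv0 : v ≠ 0 := by
      intro h0
      apply hc
      rw [h0, map_zero] at f1 f2
      ext i
      fin_cases i
      · exact (mul_eq_zero.1 f1.symm).resolve_left hl0
      · exact (mul_eq_zero.1 f2.symm).resolve_left hl0
    refine norm_le_sr hv0 (l := l) ?_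
    rw [hv, h, ← hv, f1, f2, hv, smul_add, smul_smul, smul_smul]
  apply max_le
  · apply key; rw [← hs, ← hp]; ring
  · apply key; rw [← hs, ← hp]; ring

theorem sr_rk_add_rk (x y : X) (f g : X →L[ℂ] ℂ) :
    sr (rk x f + rk y g) = Rt (f x + g y) (f x * g y - f y * g x) := by
  apply le_antisymm
  · obtain ⟨l1, l2, hs, hp⟩ := exists_roots (f x + g y) (f x * g y - f y * g x)
    rw [Rt_eq hs hp]
    apply sr_le (le_max_of_le_left (norm_nonneg _))
    intro l hl
    have h1 : Polynomial.aeval (rk x f + rk y g)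
        (Polynomial.X * (Polynomial.X ^ 2 - C (f x + g y) * Polynomial.X
          + C (f x * g y - f y * g x))) = 0 := by
      ext z
      have h0 : (Polynomial.aeval (rk x f + rk y g)
        (Polynomial.X * (Polynomial.X ^ 2 - C (f x + g y) * Polynomial.X
          + C (f x * g y - f y * g x)))) z
          = (rk x f + rk y g) ((rk x f + rk y g) ((rk x f + rk y g) z))
            - (f x + g y) • (rk x f + rk y g) ((rk x f + rk y g) z)
            + (f x * g y - f y * g x) • (rk x f + rk y g) z := by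
        rw [mul_comm, map_mul, map_add, map_sub, map_mul, map_pow, aeval_X, aeval_C, aeval_C]
        simp [Algebra.algebraMap_eq_smul_one, pow_two]
      rw [h0]
      simp only [add_apply, rk_apply, map_add, map_smul, smul_eq_mul, zero_apply]
      module
    have h2 := spec_of_aeval h1 hl
    rw [eval_mul, eval_add, eval_sub, eval_mul, eval_pow, eval_X, eval_C, eval_C, ← hs, ← hp] at h2
    rcases mul_eq_zero.1 h2 with h | h
    · rw [h, norm_zero]; exact le_max_of_le_left (norm_nonneg _)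
    · have h3 : (l - l1) * (l - l2) = 0 := by linear_combination h
      rcases mul_eq_zero.1 h3 with h4 | h4
      · rw [sub_eq_zero.1 h4]; exact le_max_left _ _
      · rw [sub_eq_zero.1 h4]; exact le_max_right _ _
  · apply Rt_le_sr
    intro c1 c2
    simp only [ContinuousLinearMap.add_apply, rk_apply]

/-- scalar plus rank one, not in dimension one -/
theorem sr_scalar_add_rk (l : ℂ) (x : X) (f : X →L[ℂ] ℂ) (hX : ∃ v w : X, LinearIndependent ℂ ![v, w]) :
    sr (l • (1 : X →L[ℂ] X) + rk x f) = max ‖l‖ ‖l + f x‖ := by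
  apply le_antisymm
  · apply sr_le (le_max_of_le_left (norm_nonneg _))
    intro m hm
    have h1 : Polynomial.aeval (l • (1 : X →L[ℂ] X) + rk x f)
        ((Polynomial.X - C l) * (Polynomial.X - C (l + f x))) = 0 := by
      rw [map_mul, map_sub, map_sub, aeval_X, aeval_C, aeval_C]
      ext z
      simp [Algebra.algebraMap_eq_smul_one, add_smul, smul_smul, mul_comm]
    have h2 := spec_of_aeval h1 hm
    rw [eval_mul, eval_sub, eval_sub, eval_X, eval_C, eval_C] at h2
    rcases mul_eq_zero.1 h2 with h | h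
    · rw [sub_eq_zero.1 h]; exact le_max_left _ _
    · rw [sub_eq_zero.1 h]; exact le_max_right _ _
  · obtain ⟨v, w, hvw⟩ := hX
    have hv0 : v ≠ 0 := hvw.ne_zero 0
    have hl : ‖l‖ ≤ sr (l • (1 : X →L[ℂ] X) + rk x f) := by
      obtain ⟨u, hu0, hfu⟩ : ∃ u : X, u ≠ 0 ∧ f u = 0 := by
        by_cases hfv : f v = 0
        · exact ⟨v, hv0, hfv⟩
        · refine ⟨f w • v + (-(f v)) • w, ?_, ?_⟩
          · intro h0
            have := LinearIndependent.pair_iff.1 hvw (f w) (-(f v)) h0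
            exact hfv (neg_eq_zero.1 this.2)
          · rw [map_add, map_smul, map_smul, smul_eq_mul, smul_eq_mul]; ring
      refine norm_le_sr hu0 (l := l) ?_
      simp [hfu]
    apply max_le hl
    by_cases hx : x = 0
    · rw [hx, map_zero, add_zero]
      rw [hx] at hl
      exact hl
    · refine norm_le_sr hx (l := l + f x) ?_
      simp [add_smul]

theorem sr_scalar_add_sq_zero [Nontrivial X] (l : ℂ) {N : X →L[ℂ] X} (hN : N * N = 0) :
    sr (l • (1 : X →L[ℂ] X) + N) = ‖l‖ := by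
  apply le_antisymm
  · apply sr_le (norm_nonneg _)
    intro m hm
    have h1 : Polynomial.aeval (l • (1 : X →L[ℂ] X) + N)
        ((Polynomial.X - C l) * (Polynomial.X - C l)) = 0 := by
      have h2 : (l • (1 : X →L[ℂ] X) + N) - algebraMap ℂ (X →L[ℂ] X) l = N := by
        rw [Algebra.algebraMap_eq_smul_one]; abel
      rw [map_mul, map_sub, aeval_X, aeval_C, h2, hN]
    have h2 := spec_of_aeval h1 hm
    rw [eval_mul, eval_sub, eval_X, eval_C] at h2
    have h3 : m - l = 0 := by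
      rcases mul_eq_zero.1 h2 with h | h <;> exact h
    rw [sub_eq_zero.1 h3]
  · obtain ⟨v, hv0, hNv⟩ : ∃ v : X, v ≠ 0 ∧ N v = 0 := by
      by_cases h : ∃ u, N u ≠ 0
      · obtain ⟨u, hu⟩ := h
        refine ⟨N u, hu, ?_⟩
        have := congrArg (fun L : X →L[ℂ] X => L u) hN
        simpa using this
      · push Not at h
        obtain ⟨v, hv⟩ := exists_ne (0 : X)
        exact ⟨v, hv, h v⟩
    refine norm_le_sr hv0 (l := l) ?_
    simp [hNv]

/-- Two by two test: `W = Σ rk (y j) (g j)`. -/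
theorem det_le_sr (T : X →L[ℂ] X) (y1 y2 : X) (g1 g2 : X →L[ℂ] ℂ) :
    ‖g1 (T y1) * g2 (T y2) - g1 (T y2) * g2 (T y1)‖ ≤ sr (T * (rk y1 g1 + rk y2 g2)) ^ 2 ∧
    ‖g1 (T y1) + g2 (T y2)‖ ≤ 2 * sr (T * (rk y1 g1 + rk y2 g2)) := by
  have h : sr (T * (rk y1 g1 + rk y2 g2)) = Rt (g1 (T y1) + g2 (T y2))
      (g1 (T y1) * g2 (T y2) - g1 (T y2) * g2 (T y1)) := by
    rw [mul_add, mul_rk, mul_rk, sr_rk_add_rk]
  rw [h]
  exact ⟨norm_det_le _ _, norm_tr_le _ _⟩

theorem det_le_sr_sq_zero (T : X →L[ℂ] X) (hT : T * T = 0) (σ : ℂ) (y1 y2 : X) (g1 g2 : X →L[ℂ] ℂ) :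
    ‖g1 (T y1) * g2 (T y2) - g1 (T y2) * g2 (T y1)‖ ≤
      sr (T * (rk y1 g1 + rk y2 g2) + σ • ((rk y1 g1 + rk y2 g2) * T)) ^ 2 ∧
    ‖g1 (T y1) + g2 (T y2)‖ ≤
      2 * sr (T * (rk y1 g1 + rk y2 g2) + σ • ((rk y1 g1 + rk y2 g2) * T)) := by
  have hTT : ∀ z, T (T z) = 0 := by
    intro z
    have := congrArg (fun L : X →L[ℂ] X => L z) hT
    simpa using this
  have h : Rt (g1 (T y1) + g2 (T y2)) (g1 (T y1) * g2 (T y2) - g1 (T y2) * g2 (T y1))
      ≤ sr (T * (rk y1 g1 + rk y2 g2) + σ • ((rk y1 g1 + rk y2 g2) * T)) := by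
    apply Rt_le_sr
    intro c1 c2
    simp [hTT]
  have h1 := norm_det_le (g1 (T y1) + g2 (T y2)) (g1 (T y1) * g2 (T y2) - g1 (T y2) * g2 (T y1))
  have h2 := norm_tr_le (g1 (T y1) + g2 (T y2)) (g1 (T y1) * g2 (T y2) - g1 (T y2) * g2 (T y1))
  have h0 : 0 ≤ Rt (g1 (T y1) + g2 (T y2))
      (g1 (T y1) * g2 (T y2) - g1 (T y2) * g2 (T y1)) := le_max_of_le_left (norm_nonneg _)
  exact ⟨h1.trans (pow_le_pow_left₀ h0 h 2), h2.trans (by linarith)⟩

end sr

end PR
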